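import Mathlib
import Pool.Agent.Lib_helper25.ET.Base
import Pool.Agent.Lib_helper42.ET.IV
import Pool.Agent.Lib_helper32.ET.M3

set_option autoImplicit false

namespace Pool.Agent.ET

open MeasureTheory Filter Topology Set
open scoped ContDiff ENNReal

noncomputable section

variable {S : Torus}

theorem LA_cell (C : Set ℝ) (K : ℝ≥0∞) (hb : BddBelow C)
    (h : ∀ t ∈ C, volume (C ∩ Ici t) ≤ K) : volume C ≤ K := by
  rcases C.eq_empty_or_nonempty with rfl | hne
  · simp
  · obtain ⟨u, hu1, hu2, hu3⟩ := exists_seq_tendsto_sInf hne hb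
    have hsub : C ⊆ {sInf C} ∪ ⋃ n, (C ∩ Ici (u n)) := by
      intro t ht
      rcases (csInf_le hb ht).eq_or_lt with h1 | h1
      · left
        exact h1.symm
      · right
        obtain ⟨n, hn⟩ := ((hu2.eventually (gt_mem_nhds h1)).exists)
        exact mem_iUnion.2 ⟨n, ht, hn.le⟩
    have hmono : Monotone (fun n => C ∩ Ici (u n)) := by
      intro a b hab
      exact inter_subset_inter_right _ (Ici_subset_Ici.2 (hu1 hab))
    calc volume C ≤ volume ({sInf C} ∪ ⋃ n, (C ∩ Ici (u n))) := measure_mono hsub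
      _ ≤ volume {sInf C} + volume (⋃ n, (C ∩ Ici (u n))) := measure_union_le _ _
      _ = volume (⋃ n, (C ∩ Ici (u n))) := by simp
      _ = ⨆ n, volume (C ∩ Ici (u n)) := hmono.measure_iUnion
      _ ≤ K := iSup_le fun n => h _ (hu3 n)

/-- the times at which the geodesic of `v` returns -/
def Flow.LA_E (Φ : Flow S) (e : ℂ) (w : ℝ) (W : Set (ℂ × ℝ)) (v : ℂ × ℝ) : Set ℝ :=
  {t | 0 ≤ t ∧ Φ.φ t v ∈ W ∧ |(Φ.D t v / e).im| ≤ w}

theorem LA_count (Φ : Flow S) (e : ℂ) (he : ‖e‖ = 1) (w : ℝ) (hw : 0 < w) (W P : Set (ℂ × ℝ))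
    (K : ℕ) (hPW : P ⊆ W) (hP : ∀ v ∈ P, volume (Φ.LA_E e w W v) ≤ K) (v : ℂ × ℝ) (T R : ℝ)
    (hR : ∀ t ∈ Icc 0 T, ‖Φ.D t v‖ ≤ R) (hR0 : 0 ≤ R) :
    volume {t | t ∈ Icc 0 T ∧ Φ.φ t v ∈ P} ≤ ENNReal.ofReal (K * (2 * R / w + 2)) := by
  set f : ℝ → ℝ := fun t => (Φ.D t v / e).im with hf
  set C : ℤ → Set ℝ := fun j => {t | t ∈ Icc 0 T ∧ Φ.φ t v ∈ P ∧ ⌊f t / w⌋ = j} with hC
  have hfR : ∀ t ∈ Icc 0 T, |f t| ≤ R := by
    intro t ht
    calc |f t| ≤ ‖Φ.D t v / e‖ := Complex.abs_im_le_norm _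
      _ = ‖Φ.D t v‖ := by rw [norm_div, he, div_one]
      _ ≤ R := hR t ht
  have hcell : ∀ j, volume (C j) ≤ K := by
    intro j
    apply LA_cell _ _ ⟨0, fun t ht => ht.1.1⟩
    intro t₀ ht₀
    have hsub : C j ∩ Ici t₀ ⊆ (fun s => s + (-t₀)) ⁻¹' (Φ.LA_E e w W (Φ.φ t₀ v)) := by
      rintro s ⟨hs, hs'⟩
      rw [mem_Ici] at hs'
      simp only [mem_preimage, Flow.LA_E, mem_ofPred_eq]
      refine ⟨by linarith, ?_, ?_⟩
      · rw [← Φ.add]
        have : s + -t₀ + t₀ = s := by ring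
        rw [this]
        exact hPW hs.2.1
      · have h1 : s + -t₀ = s - t₀ := by ring
        rw [h1, Φ.D_sub, sub_div, Complex.sub_im]
        have h2 := hs.2.2
        have h3 := ht₀.2.2
        rw [Int.floor_eq_iff, le_div_iff₀ hw, div_lt_iff₀ hw] at h2 h3
        simp only [hf] at h2 h3
        rw [abs_le]
        constructor <;> nlinarith
    calc volume (C j ∩ Ici t₀) ≤ volume ((fun s => s + (-t₀)) ⁻¹' (Φ.LA_E e w W (Φ.φ t₀ v))) :=
          measure_mono hsub
      _ = volume (Φ.LA_E e w W (Φ.φ t₀ v)) := measure_preimage_add_right _ _ _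
      _ ≤ K := hP _ ht₀.2.1
  have hcov : {t | t ∈ Icc 0 T ∧ Φ.φ t v ∈ P} ⊆ ⋃ j ∈ Finset.Icc ⌊-(R / w)⌋ ⌊R / w⌋, C j := by
    rintro t ⟨ht1, ht2⟩
    rw [mem_iUnion₂]
    refine ⟨⌊f t / w⌋, ?_, ht1, ht2, rfl⟩
    have h1 := abs_le.1 (hfR t ht1)
    rw [Finset.mem_Icc]
    constructor
    · apply Int.floor_le_floor
      rw [← neg_div]
      exact div_le_div_of_nonneg_right h1.1 hw.le
    · apply Int.floor_le_floor
      exact div_le_div_of_nonneg_right h1.2 hw.le
  calc volume {t | t ∈ Icc 0 T ∧ Φ.φ t v ∈ P}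
      ≤ volume (⋃ j ∈ Finset.Icc ⌊-(R / w)⌋ ⌊R / w⌋, C j) := measure_mono hcov
    _ ≤ ∑ j ∈ Finset.Icc ⌊-(R / w)⌋ ⌊R / w⌋, volume (C j) := measure_biUnion_finset_le _ _
    _ ≤ ∑ j ∈ Finset.Icc ⌊-(R / w)⌋ ⌊R / w⌋, (K : ℝ≥0∞) := Finset.sum_le_sum fun j _ => hcell j
    _ = ((Finset.Icc ⌊-(R / w)⌋ ⌊R / w⌋).card : ℝ≥0∞) * K := by
        rw [Finset.sum_const, nsmul_eq_mul]
    _ ≤ ENNReal.ofReal (K * (2 * R / w + 2)) := by
        have hRw : 0 ≤ R / w := by positivity
        have h1 : (((Finset.Icc ⌊-(R / w)⌋ ⌊R / w⌋).card : ℕ) : ℝ) ≤ 2 * R / w + 2 := by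
          rw [Int.card_Icc]
          have h2 : ((⌊R / w⌋ + 1 - ⌊-(R / w)⌋).toNat : ℤ) = ⌊R / w⌋ + 1 - ⌊-(R / w)⌋ := by
            apply Int.toNat_of_nonneg
            have h3 : ⌊-(R / w)⌋ ≤ ⌊R / w⌋ := Int.floor_le_floor (by linarith)
            omega
          have h4 : ((⌊R / w⌋ + 1 - ⌊-(R / w)⌋).toNat : ℝ) = (⌊R / w⌋ : ℝ) + 1 - (⌊-(R / w)⌋ : ℝ) := by
            exact_mod_cast congrArg (fun z : ℤ => (z : ℝ)) h2
          rw [h4]
          have h5 := Int.floor_le (R / w)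
          have h6 := Int.lt_floor_add_one (-(R / w))
          have h7 : 2 * R / w = R / w + R / w := by ring
          rw [h7]
          linarith
        rw [← ENNReal.ofReal_natCast, ← ENNReal.ofReal_natCast (n := K),
          ← ENNReal.ofReal_mul (by positivity)]
        apply ENNReal.ofReal_le_ofReal
        have hK : (0 : ℝ) ≤ K := Nat.cast_nonneg K
        nlinarith

theorem LA_E_meas (Φ : Flow S) (e : ℂ) (w : ℝ) (W : Set (ℂ × ℝ)) (hW : MeasurableSet W) :
    MeasurableSet {p : (ℂ × ℝ) × ℝ | p.2 ∈ Φ.LA_E e w W p.1} := by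
  have h1 : Measurable (fun p : (ℂ × ℝ) × ℝ => Φ.φ p.2 p.1) :=
    (Φ.cont.comp (by fun_prop : Continuous (fun p : (ℂ × ℝ) × ℝ => (p.2, p.1)))).measurable
  have h2 : Measurable (fun p : (ℂ × ℝ) × ℝ => |(Φ.D p.2 p.1 / e).im|) := by
    have h3 : Continuous (fun p : (ℂ × ℝ) × ℝ => Φ.D p.2 p.1) :=
      Φ.D_cont.comp (by fun_prop : Continuous (fun p : (ℂ × ℝ) × ℝ => (p.2, p.1)))
    exact (continuous_abs.comp (Complex.continuous_im.comp (h3.div_const e))).measurable
  have h4 : {p : (ℂ × ℝ) × ℝ | p.2 ∈ Φ.LA_E e w W p.1} =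
      {p | 0 ≤ p.2} ∩ ((fun p : (ℂ × ℝ) × ℝ => Φ.φ p.2 p.1) ⁻¹' W ∩
        {p | |(Φ.D p.2 p.1 / e).im| ≤ w}) := by
    ext p
    simp [Flow.LA_E]
  rw [h4]
  exact (measurableSet_le measurable_const measurable_snd).inter
    ((h1 hW).inter (measurableSet_le h2 measurable_const))

theorem LA_E_inv (Φ : Flow S) (e : ℂ) (w : ℝ) (W : Set (ℂ × ℝ)) (hi : S.Inv (fun v => v ∈ W)) :
    S.Inv (fun v => Φ.LA_E e w W v) where
  inv₁ v := by
    ext t
    have h1 := (hi.phi Φ t).inv₁ v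
    have h2 := (Φ.D_inv t).inv₁ v
    simp only [Flow.LA_E, mem_ofPred_eq]
    rw [h1, h2]
  inv₂ v := by
    ext t
    have h1 := (hi.phi Φ t).inv₂ v
    have h2 := (Φ.D_inv t).inv₂ v
    simp only [Flow.LA_E, mem_ofPred_eq]
    rw [h1, h2]
  inv₃ v := by
    ext t
    have h1 := (hi.phi Φ t).inv₃ v
    have h2 := (Φ.D_inv t).inv₃ v
    simp only [Flow.LA_E, mem_ofPred_eq]
    rw [h1, h2]

/-- the bad set is null -/
theorem LA_null (h : S.Ergodic) (Φ : Flow S) (e : ℂ) (he : ‖e‖ = 1) (w : ℝ) (hw : 0 < w)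
    (W : Set (ℂ × ℝ)) (hW : MeasurableSet W) (hi : S.Inv (fun v => v ∈ W)) (K : ℕ) :
    volume {v | v ∈ W ∧ volume (Φ.LA_E e w W v) ≤ K} = 0 := by
  set P : Set (ℂ × ℝ) := {v | v ∈ W ∧ volume (Φ.LA_E e w W v) ≤ K} with hPdef
  have hPm : MeasurableSet P := by
    have h1 : Measurable (fun v => volume (Φ.LA_E e w W v)) := by
      have := measurable_measure_prodMk_left (ν := (volume : Measure ℝ)) (LA_E_meas Φ e w W hW)
      exact this
    exact hW.inter (measurableSet_le h1 measurable_const)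
  have hPi : S.Inv (fun v => v ∈ P) := by
    have h1 := LA_E_inv Φ e w W hi
    constructor
    · intro v
      simp only [hPdef, mem_ofPred_eq]
      have h2 := h1.inv₁ v
      have h3 := hi.inv₁ v
      rw [h2, h3]
    · intro v
      simp only [hPdef, mem_ofPred_eq]
      have h2 := h1.inv₂ v
      have h3 := hi.inv₂ v
      rw [h2, h3]
    · intro v
      simp only [hPdef, mem_ofPred_eq]
      have h2 := h1.inv₃ v
      have h3 := hi.inv₃ v
      rw [h2, h3]
  rw [box_null S P hPi]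
  -- the main estimate
  have hB := box_fin S
  set B : ℝ := (S.m S.box).toReal with hBdef
  have hBof : S.m S.box = ENNReal.ofReal B := (ENNReal.ofReal_toReal hB.ne).symm
  have hB0 : 0 ≤ B := ENNReal.toReal_nonneg
  have hxfin : S.m (P ∩ S.box) < ⊤ := lt_of_le_of_lt (measure_mono inter_subset_right) hB
  set x : ℝ := (S.m (P ∩ S.box)).toReal with hxdef
  have hxof : S.m (P ∩ S.box) = ENNReal.ofReal x := (ENNReal.ofReal_toReal hxfin.ne).symm
  have hx0 : 0 ≤ x := ENNReal.toReal_nonneg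
  have key : ∀ η : ℝ, 0 < η → ∃ T₀ > (0 : ℝ), ∀ T ≥ T₀,
      T * x ≤ (K * (2 * (η * T) / w + 2)) * B + 2 * K * η * T / w := by
    intro η hη
    obtain ⟨T₀, hT₀, hT⟩ := disp_small h Φ (η ^ 2) (by positivity)
    refine ⟨T₀, hT₀, fun T hTT => ?_⟩
    have hTpos : 0 < T := lt_of_lt_of_le hT₀ hTT
    obtain ⟨R, hRm, hR0, hRD, hRint⟩ := hT T hTT
    -- left side
    have hleft : ∫⁻ v in S.box, volume {t | t ∈ Icc 0 T ∧ Φ.φ t v ∈ P} ∂S.m =
        ENNReal.ofReal (T * x) := by
      have h1 : ∀ v, volume {t | t ∈ Icc 0 T ∧ Φ.φ t v ∈ P} =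
          ∫⁻ t in Icc 0 T, P.indicator (fun _ => (1 : ℝ≥0∞)) (Φ.φ t v) := by
        intro v
        have hms : MeasurableSet {t | Φ.φ t v ∈ P} := (Φ.cont_t v).measurable hPm
        have h2 : (fun t => P.indicator (fun _ => (1 : ℝ≥0∞)) (Φ.φ t v)) =
            ({t | Φ.φ t v ∈ P}).indicator (fun _ => (1 : ℝ≥0∞)) := by
          ext t
          simp [indicator]
        rw [h2, lintegral_indicator hms, lintegral_const, one_mul,
          Measure.restrict_apply MeasurableSet.univ, univ_inter,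
          Measure.restrict_apply hms, inter_comm]
        rfl
      simp_rw [h1]
      have hmeas : Measurable (fun p : (ℂ × ℝ) × ℝ =>
          P.indicator (fun _ => (1 : ℝ≥0∞)) (Φ.φ p.2 p.1)) := by
        have h3 : Measurable (fun p : (ℂ × ℝ) × ℝ => Φ.φ p.2 p.1) :=
          (Φ.cont.comp (by fun_prop : Continuous (fun p : (ℂ × ℝ) × ℝ => (p.2, p.1)))).measurable
        exact (measurable_const.indicator hPm).comp h3
      have hsf : SFinite (S.m.restrict S.box) := by
        have : IsFiniteMeasure (S.m.restrict S.box) := ⟨by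
          rw [Measure.restrict_apply MeasurableSet.univ, univ_inter]; exact hB⟩
        infer_instance
      rw [lintegral_lintegral_swap hmeas.aemeasurable]
      have h4 : ∀ t, ∫⁻ v in S.box, P.indicator (fun _ => (1 : ℝ≥0∞)) (Φ.φ t v) ∂S.m =
          ENNReal.ofReal x := by
        intro t
        rw [lint_inv Φ t (P.indicator (fun _ => (1 : ℝ≥0∞))) (measurable_const.indicator hPm)
          ?_]
        · rw [lintegral_indicator hPm, lintegral_const, one_mul,
            Measure.restrict_apply MeasurableSet.univ, univ_inter, Measure.restrict_apply hPm,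
            hxof]
        · have hg := hPi.comp (fun b : Prop => @ite ℝ≥0∞ b (Classical.dec b) 1 0)
          have he : P.indicator (fun _ => (1 : ℝ≥0∞)) =
              fun v => @ite ℝ≥0∞ (v ∈ P) (Classical.dec (v ∈ P)) 1 0 := by
            ext v
            unfold indicator
            congr
          rw [he]
          exact hg
      simp_rw [h4]
      rw [lintegral_const, Measure.restrict_apply MeasurableSet.univ, univ_inter, Real.volume_Icc,
        sub_zero, ← ENNReal.ofReal_mul hx0, mul_comm]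
    -- right side
    have hright : ∫⁻ v in S.box, volume {t | t ∈ Icc 0 T ∧ Φ.φ t v ∈ P} ∂S.m ≤
        ENNReal.ofReal ((K * (2 * (η * T) / w + 2)) * B + 2 * K * η * T / w) := by
      have hpt : ∀ v, volume {t | t ∈ Icc 0 T ∧ Φ.φ t v ∈ P} ≤
          ENNReal.ofReal (K * (2 * (η * T) / w + 2)) +
            ENNReal.ofReal (2 * K / (w * (η * T))) * ENNReal.ofReal (R v ^ 2) := by
        intro v
        refine (LA_count Φ e he w hw W P K (fun v hv => hv.1) (fun v hv => hv.2) v T (R v)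
          (fun t ht => hRD v t (by rw [abs_of_nonneg ht.1]; exact ht.2)) (hR0 v)).trans ?_
        rw [← ENNReal.ofReal_mul (by positivity), ← ENNReal.ofReal_add (by positivity)
          (by positivity)]
        apply ENNReal.ofReal_le_ofReal
        have hηT : 0 < η * T := by positivity
        have h5 : R v ≤ η * T + R v ^ 2 / (η * T) := by
          have h6 : R v * (η * T) ≤ (η * T) * (η * T) + R v ^ 2 := by
            nlinarith [sq_nonneg (R v - η * T), hR0 v, mul_nonneg (hR0 v) hηT.le]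
          have h7 : η * T + R v ^ 2 / (η * T) = ((η * T) * (η * T) + R v ^ 2) / (η * T) := by
            field_simp
          rw [h7, le_div_iff₀ hηT]
          exact h6
        have h8 : 2 * (K : ℝ) / (w * (η * T)) * R v ^ 2 = K * (2 * (R v ^ 2 / (η * T)) / w) := by
          field_simp
        rw [h8, ← mul_add]
        apply mul_le_mul_of_nonneg_left _ (Nat.cast_nonneg K)
        have h9 : 2 * (η * T) / w + 2 + 2 * (R v ^ 2 / (η * T)) / w =
            2 * (η * T + R v ^ 2 / (η * T)) / w + 2 := by ring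
        rw [h9]
        have h10 : 2 * R v / w ≤ 2 * (η * T + R v ^ 2 / (η * T)) / w :=
          div_le_div_of_nonneg_right (by linarith) hw.le
        linarith
      calc ∫⁻ v in S.box, volume {t | t ∈ Icc 0 T ∧ Φ.φ t v ∈ P} ∂S.m
          ≤ ∫⁻ v in S.box, (ENNReal.ofReal (K * (2 * (η * T) / w + 2)) +
            ENNReal.ofReal (2 * K / (w * (η * T))) * ENNReal.ofReal (R v ^ 2)) ∂S.m :=
            lintegral_mono hpt
        _ = ENNReal.ofReal (K * (2 * (η * T) / w + 2)) * S.m S.box +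
            ENNReal.ofReal (2 * K / (w * (η * T))) *
              ∫⁻ v in S.box, ENNReal.ofReal (R v ^ 2) ∂S.m := by
            rw [lintegral_add_left measurable_const, lintegral_const,
              Measure.restrict_apply MeasurableSet.univ, univ_inter,
              lintegral_const_mul _ (by fun_prop)]
        _ ≤ ENNReal.ofReal (K * (2 * (η * T) / w + 2)) * ENNReal.ofReal B +
            ENNReal.ofReal (2 * K / (w * (η * T))) * ENNReal.ofReal (η ^ 2 * T ^ 2) := by
            rw [hBof]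
            gcongr
        _ = ENNReal.ofReal ((K * (2 * (η * T) / w + 2)) * B + 2 * K * η * T / w) := by
            rw [← ENNReal.ofReal_mul (by positivity), ← ENNReal.ofReal_mul (by positivity),
              ← ENNReal.ofReal_add (by positivity) (by positivity)]
            congr 1
            field_simp
    rw [hleft] at hright
    exact (ENNReal.ofReal_le_ofReal_iff (by positivity)).1 hright
  have hx : x = 0 := by
    by_contra hne
    have hxpos : 0 < x := lt_of_le_of_ne hx0 (Ne.symm hne)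
    -- choose η
    set k : ℝ := (K : ℝ) + 1 with hk
    have hkpos : 0 < k := by positivity
    set η : ℝ := x * w / (8 * k * (B + 1)) with hη
    have hηpos : 0 < η := by positivity
    obtain ⟨T₀, hT₀, hT⟩ := key η hηpos
    set T : ℝ := max T₀ (8 * k * (B + 1) / x) with hTdef
    have h1 := hT T (le_max_left _ _)
    have hTpos : 0 < T := lt_of_lt_of_le hT₀ (le_max_left _ _)
    have h2 : 8 * k * (B + 1) / x ≤ T := le_max_right _ _
    have h3 : 8 * k * (B + 1) ≤ T * x := by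
      rwa [div_le_iff₀ hxpos] at h2
    have hKk : (K : ℝ) ≤ k := by linarith
    have hK0 : (0 : ℝ) ≤ K := Nat.cast_nonneg K
    have h4 : η / w = x / (8 * k * (B + 1)) := by
      rw [hη]; field_simp
    have h5 : (K * (2 * (η * T) / w + 2)) * B + 2 * K * η * T / w =
        2 * K * (η / w) * T * (B + 1) + 2 * K * B := by ring
    rw [h5, h4] at h1
    have h6 : 2 * K * (x / (8 * k * (B + 1))) * T * (B + 1) = (K / k) * (x * T) / 4 := by
      field_simp
      ring
    rw [h6] at h1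
    have h7 : (K : ℝ) / k ≤ 1 := by
      rw [div_le_one hkpos]; exact hKk
    have h8 : (K / k) * (x * T) ≤ x * T := by
      have : 0 ≤ x * T := by positivity
      nlinarith
    have h9 : 2 * K * B ≤ T * x / 4 := by
      have h10 : 2 * (K : ℝ) * B ≤ 2 * k * (B + 1) := by
        have : (K : ℝ) * B ≤ k * (B + 1) := by nlinarith
        linarith
      linarith
    nlinarith [mul_pos hTpos hxpos]
  rw [hxof, hx, ENNReal.ofReal_zero]

theorem recA (h : S.Ergodic) (Φ : Flow S) (e : ℂ) (he : ‖e‖ = 1) (w : ℝ) (hw : 0 < w)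
    (W : Set (ℂ × ℝ)) (hW : MeasurableSet W) (hi : S.Inv (fun v => v ∈ W)) :
    ∀ᵐ v : ℂ × ℝ, v ∈ W → ∀ T : ℝ, ∃ t ≥ T, Φ.φ t v ∈ W ∧ |(Φ.D t v / e).im| ≤ w := by
  have h1 : ∀ᵐ v : ℂ × ℝ, ∀ K : ℕ, ¬(v ∈ W ∧ volume (Φ.LA_E e w W v) ≤ K) := by
    rw [ae_all_iff]
    intro K
    rw [ae_iff]
    simp only [not_not]
    exact LA_null h Φ e he w hw W hW hi K
  filter_upwards [h1] with v hv hvW T
  by_contra hcon
  push Not at hcon
  obtain ⟨K, hK⟩ := exists_nat_ge (max T 0)
  refine hv K ⟨hvW, ?_⟩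
  have h2 : Φ.LA_E e w W v ⊆ Icc 0 (K : ℝ) := by
    rintro t ⟨h3, h4, h5⟩
    refine ⟨h3, ?_⟩
    by_contra h6
    push Not at h6
    have h7 : T ≤ t := (le_max_left T 0).trans (hK.trans h6.le)
    exact absurd h5 (not_le.2 (hcon t h7 h4))
  calc volume (Φ.LA_E e w W v) ≤ volume (Icc 0 (K : ℝ)) := measure_mono h2
    _ = K := by rw [Real.volume_Icc, sub_zero, ENNReal.ofReal_natCast]

end

end Pool.Agent.ET
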