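import Mathlib
import Pool.Agent.Lib_helper25.ET.Base
import Pool.Agent.Lib_helper94.ET.ER

set_option autoImplicit false

namespace Pool.Agent.ET

open MeasureTheory Filter Topology Set
open scoped ContDiff ENNReal

noncomputable section

variable {S : Torus}

theorem NB_u_bdd (S : Torus) : ∃ U : ℝ, 0 ≤ U ∧ ∀ z, |S.u z| ≤ U := by
  have hK : IsCompact ((fun p : ℝ × ℝ => (p.1 : ℂ) * S.w₁ + p.2 * S.w₂) ''
      (Icc 0 1 ×ˢ Icc 0 1)) :=
    (isCompact_Icc.prod isCompact_Icc).image (by fun_prop)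
  obtain ⟨U, hU⟩ := hK.exists_bound_of_continuousOn S.smooth.continuous.continuousOn
  refine ⟨max U 0, le_max_right _ _, fun z => ?_⟩
  have hb : ∃ x y : ℝ, x • S.w₁ + y • S.w₂ = z := by
    have hspan : Submodule.span ℝ (range ![S.w₁, S.w₂]) = ⊤ :=
      S.indep.span_eq_top_of_card_eq_finrank' (by simp)
    have hz : z ∈ Submodule.span ℝ (range ![S.w₁, S.w₂]) := by rw [hspan]; trivial
    have hr : range ![S.w₁, S.w₂] = {S.w₁, S.w₂} := by
      rw [Matrix.range_cons, Matrix.range_cons, Matrix.range_empty, union_empty]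
      rfl
    rw [hr, Submodule.mem_span_pair] at hz
    exact hz
  obtain ⟨x, y, hxy⟩ := hb
  have p1 : Function.Periodic S.u S.w₁ := S.per₁
  have p2 : Function.Periodic S.u S.w₂ := S.per₂
  have e1 : z = ((Int.fract x : ℝ) : ℂ) * S.w₁ + ((Int.fract y : ℝ) : ℂ) * S.w₂ + ⌊x⌋ • S.w₁ +
      ⌊y⌋ • S.w₂ := by
    rw [← hxy]
    have hx : (x : ℂ) = ((Int.fract x : ℝ) : ℂ) + (⌊x⌋ : ℂ) := by
      have := Int.fract_add_floor x
      exact_mod_cast congrArg (fun r : ℝ => (r : ℂ)) this.symm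
    have hy : (y : ℂ) = ((Int.fract y : ℝ) : ℂ) + (⌊y⌋ : ℂ) := by
      have := Int.fract_add_floor y
      exact_mod_cast congrArg (fun r : ℝ => (r : ℂ)) this.symm
    rw [Complex.real_smul, Complex.real_smul, hx, hy, zsmul_eq_mul, zsmul_eq_mul]
    ring
  rw [e1, p2.zsmul, p1.zsmul]
  refine le_trans ?_ (le_max_left _ _)
  have := hU (((Int.fract x : ℝ) : ℂ) * S.w₁ + ((Int.fract y : ℝ) : ℂ) * S.w₂)
    ⟨(Int.fract x, Int.fract y), ⟨⟨Int.fract_nonneg x, (Int.fract_lt_one x).le⟩,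
      ⟨Int.fract_nonneg y, (Int.fract_lt_one y).le⟩⟩, rfl⟩
  rwa [Real.norm_eq_abs] at this

/-! ### the discrete minimiser -/

/-- a term of the energy -/
def Torus.NB_T (S : Torus) (z : ℕ → ℂ) (j : ℕ) : ℝ :=
  Real.exp (2 * S.u (z j)) * ‖z (j + 1) - z j‖ ^ 2

/-- the energy of a broken line -/
def Torus.NB_E (S : Torus) (m : ℕ) (z : ℕ → ℂ) : ℝ := ∑ j ∈ Finset.range m, S.NB_T z j

theorem NB_E_cont (S : Torus) (m : ℕ) : Continuous (S.NB_E m) := by
  unfold Torus.NB_E Torus.NB_T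
  have := S.smooth.continuous
  fun_prop

theorem NB_line (S : Torus) (U : ℝ) (hU : ∀ z, |S.u z| ≤ U) (m : ℕ) (hm : 0 < m) (L : ℂ) :
    S.NB_E m (fun k => if k < m then ((k : ℝ) / m : ℝ) * L else L) ≤
      Real.exp (2 * U) * ‖L‖ ^ 2 / m := by
  have hm' : (m : ℝ) ≠ 0 := by positivity
  have hm'' : (m : ℂ) ≠ 0 := by exact_mod_cast hm.ne'
  have h1 : ∀ j ∈ Finset.range m, S.NB_T (fun k => if k < m then ((k : ℝ) / m : ℝ) * L else L) j ≤
      Real.exp (2 * U) * (‖L‖ ^ 2 / m ^ 2) := by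
    intro j hj
    rw [Finset.mem_range] at hj
    have h2 : (fun k : ℕ => if k < m then (((k : ℝ) / m : ℝ) : ℂ) * L else L) (j + 1) -
        (fun k : ℕ => if k < m then (((k : ℝ) / m : ℝ) : ℂ) * L else L) j = L / m := by
      simp only [hj, if_true]
      by_cases h3 : j + 1 < m
      · simp only [h3, if_true]
        push_cast
        field_simp
        ring
      · have h4 : j + 1 = m := by omega
        simp only [h3, if_false]
        have h5 : (j : ℂ) = m - 1 := by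
          rw [← h4]; push_cast; ring
        push_cast
        rw [h5]
        field_simp
        ring
    unfold Torus.NB_T
    rw [h2, norm_div, Complex.norm_natCast, div_pow]
    gcongr
    exact (le_abs_self _).trans (hU _)
  calc S.NB_E m _ ≤ ∑ j ∈ Finset.range m, Real.exp (2 * U) * (‖L‖ ^ 2 / m ^ 2) :=
        Finset.sum_le_sum h1
    _ = Real.exp (2 * U) * ‖L‖ ^ 2 / m := by
        rw [Finset.sum_const, Finset.card_range, nsmul_eq_mul]
        field_simp

theorem NB_min (S : Torus) (U : ℝ) (hU : ∀ z, |S.u z| ≤ U) (m : ℕ) (hm : 0 < m) (L : ℂ) :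
    ∃ z : ℕ → ℂ, z 0 = 0 ∧ z m = L ∧ (∀ k ≤ m, ‖z k‖ ≤ Real.exp (2 * U) * ‖L‖) ∧
      ∑ j ∈ Finset.range m, ‖z (j + 1) - z j‖ ^ 2 ≤ Real.exp (4 * U) * ‖L‖ ^ 2 / m ∧
      ∀ k, 1 ≤ k → k < m → ∀ᶠ w in 𝓝 (z k), S.NB_E m z ≤ S.NB_E m (Function.update z k w) := by
  set R : ℝ := Real.exp (2 * U) * ‖L‖ + 1 with hR
  have hU0 : 0 ≤ U := (abs_nonneg _).trans (hU 0)
  have hLR : ‖L‖ ≤ R := by
    have h1 : 1 ≤ Real.exp (2 * U) := Real.one_le_exp (by linarith)
    nlinarith [norm_nonneg L]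
  set Q : ℕ → Set ℂ := fun k => if k = 0 then {0} else if m ≤ k then {L} else
    Metric.closedBall 0 R with hQ
  have hQc : ∀ k, IsCompact (Q k) := by
    intro k
    simp only [hQ]
    split_ifs
    · exact isCompact_singleton
    · exact isCompact_singleton
    · exact isCompact_closedBall _ _
  have hcomp : IsCompact {z : ℕ → ℂ | ∀ k, z k ∈ Q k} := isCompact_pi_infinite hQc
  have hline : (fun k : ℕ => if k < m then (((k : ℝ) / m : ℝ) : ℂ) * L else L) ∈
      {z : ℕ → ℂ | ∀ k, z k ∈ Q k} := by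
    intro k
    simp only [hQ]
    by_cases h0 : k = 0
    · subst h0
      simp [hm]
    · by_cases h1 : m ≤ k
      · simp [h0, h1, not_lt.2 h1]
      · have h2 : k < m := not_le.1 h1
        simp only [h0, if_false, h1, h2, if_true]
        rw [Metric.mem_closedBall, dist_zero_right, norm_mul, Complex.norm_real, Real.norm_eq_abs,
          abs_of_nonneg (by positivity)]
        have h3 : (k : ℝ) / m ≤ 1 := by
          rw [div_le_one (by positivity)]
          exact_mod_cast h2.le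
        nlinarith [norm_nonneg L]
  obtain ⟨z, hz, hmin⟩ := hcomp.exists_isMinOn ⟨_, hline⟩ (NB_E_cont S m).continuousOn
  have hz0 : z 0 = 0 := by
    have := hz 0
    simpa [hQ] using this
  have hzm : z m = L := by
    have := hz m
    simpa [hQ, hm.ne'] using this
  have hE : S.NB_E m z ≤ Real.exp (2 * U) * ‖L‖ ^ 2 / m :=
    (hmin hline).trans (NB_line S U hU m hm L)
  have hsum : ∑ j ∈ Finset.range m, ‖z (j + 1) - z j‖ ^ 2 ≤
      Real.exp (4 * U) * ‖L‖ ^ 2 / m := by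
    have h1 : ∀ j ∈ Finset.range m, ‖z (j + 1) - z j‖ ^ 2 ≤ Real.exp (2 * U) * S.NB_T z j := by
      intro j _
      unfold Torus.NB_T
      rw [← mul_assoc, ← Real.exp_add]
      have h2 : 1 ≤ Real.exp (2 * U + 2 * S.u (z j)) := by
        apply Real.one_le_exp
        have := (abs_le.1 (hU (z j))).1
        linarith
      nlinarith [sq_nonneg ‖z (j + 1) - z j‖]
    calc ∑ j ∈ Finset.range m, ‖z (j + 1) - z j‖ ^ 2
        ≤ ∑ j ∈ Finset.range m, Real.exp (2 * U) * S.NB_T z j := Finset.sum_le_sum h1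
      _ = Real.exp (2 * U) * S.NB_E m z := by rw [Torus.NB_E, Finset.mul_sum]
      _ ≤ Real.exp (2 * U) * (Real.exp (2 * U) * ‖L‖ ^ 2 / m) := by gcongr
      _ = Real.exp (4 * U) * ‖L‖ ^ 2 / m := by
          rw [mul_div_assoc', ← mul_assoc, ← Real.exp_add]
          congr 3
          ring
  have hnorm : ∀ k ≤ m, ‖z k‖ ≤ Real.exp (2 * U) * ‖L‖ := by
    intro k hk
    have h1 : z k = ∑ j ∈ Finset.range k, (z (j + 1) - z j) := by
      rw [Finset.sum_range_sub, hz0, sub_zero]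
    have h2 : ‖z k‖ ≤ ∑ j ∈ Finset.range k, ‖z (j + 1) - z j‖ := by
      rw [h1]
      exact norm_sum_le _ _
    have h3 : (∑ j ∈ Finset.range k, ‖z (j + 1) - z j‖) ^ 2 ≤
        k * ∑ j ∈ Finset.range k, ‖z (j + 1) - z j‖ ^ 2 := by
      have := sq_sum_le_card_mul_sum_sq (s := Finset.range k) (f := fun j => ‖z (j + 1) - z j‖)
      rwa [Finset.card_range] at this
    have h4 : ∑ j ∈ Finset.range k, ‖z (j + 1) - z j‖ ^ 2 ≤
        ∑ j ∈ Finset.range m, ‖z (j + 1) - z j‖ ^ 2 :=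
      Finset.sum_le_sum_of_subset_of_nonneg (Finset.range_subset_range.2 hk)
        (fun _ _ _ => by positivity)
    have h5 : ‖z k‖ ^ 2 ≤ (Real.exp (2 * U) * ‖L‖) ^ 2 := by
      have hm0 : (0 : ℝ) < m := by exact_mod_cast hm
      have hkm : (k : ℝ) ≤ m := by exact_mod_cast hk
      calc ‖z k‖ ^ 2 ≤ (∑ j ∈ Finset.range k, ‖z (j + 1) - z j‖) ^ 2 := by gcongr
        _ ≤ k * ∑ j ∈ Finset.range k, ‖z (j + 1) - z j‖ ^ 2 := h3
        _ ≤ m * (Real.exp (4 * U) * ‖L‖ ^ 2 / m) := by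
            gcongr
            exact h4.trans hsum
        _ = (Real.exp (2 * U) * ‖L‖) ^ 2 := by
            have e4 : Real.exp (4 * U) = Real.exp (2 * U) ^ 2 := by
              rw [← Real.exp_nat_mul]
              congr 1
              push_cast
              ring
            rw [e4]
            field_simp
    exact (pow_le_pow_iff_left₀ (norm_nonneg _) (by positivity) two_ne_zero).1 h5
  refine ⟨z, hz0, hzm, hnorm, hsum, ?_⟩
  intro k hk1 hkm
  have hball : Metric.ball (0 : ℂ) R ∈ 𝓝 (z k) := by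
    apply Metric.isOpen_ball.mem_nhds
    rw [Metric.mem_ball, dist_zero_right]
    have := hnorm k hkm.le
    linarith
  filter_upwards [hball] with w hw
  apply hmin
  intro j
  by_cases hj : j = k
  · subst hj
    have h1 : j ≠ 0 := by omega
    have h2 : ¬ m ≤ j := by omega
    simp only [hQ, h1, if_false, h2, Function.update_self]
    exact Metric.ball_subset_closedBall hw
  · rw [Function.update_of_ne hj]
    exact hz j

/-- the Euler-Lagrange equation of the discrete minimiser -/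
theorem NB_EL (S : Torus) (m : ℕ) (z : ℕ → ℂ) (i : ℕ) (hi : i + 1 < m)
    (hmin : ∀ᶠ w in 𝓝 (z (i + 1)), S.NB_E m z ≤ S.NB_E m (Function.update z (i + 1) w)) :
    (Real.exp (2 * S.u (z (i + 1))) : ℂ) * (z (i + 2) - z (i + 1)) -
      (Real.exp (2 * S.u (z i)) : ℂ) * (z (i + 1) - z i) =
    (Real.exp (2 * S.u (z (i + 1))) * ‖z (i + 2) - z (i + 1)‖ ^ 2 : ℝ) * S.grad (z (i + 1)) := by
  set g : ℂ → ℝ := fun w => Real.exp (2 * S.u (z i)) * ‖w - z i‖ ^ 2 +
    Real.exp (2 * S.u w) * ‖z (i + 2) - w‖ ^ 2 with hg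
  have hsplit : ∀ y : ℕ → ℂ, S.NB_E m y = S.NB_T y i + (S.NB_T y (i + 1) +
      ∑ j ∈ ((Finset.range m).erase i).erase (i + 1), S.NB_T y j) := by
    intro y
    rw [Torus.NB_E, ← Finset.add_sum_erase (Finset.range m) _ (a := i)
      (Finset.mem_range.2 (by omega)), ← Finset.add_sum_erase ((Finset.range m).erase i) _
      (a := i + 1) (Finset.mem_erase.2 ⟨by omega, Finset.mem_range.2 hi⟩)]
  have hrest : ∀ w, ∑ j ∈ ((Finset.range m).erase i).erase (i + 1),
      S.NB_T (Function.update z (i + 1) w) j =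
      ∑ j ∈ ((Finset.range m).erase i).erase (i + 1), S.NB_T z j := by
    intro w
    apply Finset.sum_congr rfl
    intro j hj
    rw [Finset.mem_erase, Finset.mem_erase] at hj
    have h1 : j + 1 ≠ i + 1 := by omega
    unfold Torus.NB_T
    rw [Function.update_of_ne hj.1, Function.update_of_ne h1]
  have hgmin : IsLocalMin g (z (i + 1)) := by
    filter_upwards [hmin] with w hw
    rw [hsplit z, hsplit (Function.update z (i + 1) w), hrest w] at hw
    have h1 : S.NB_T (Function.update z (i + 1) w) i =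
        Real.exp (2 * S.u (z i)) * ‖w - z i‖ ^ 2 := by
      unfold Torus.NB_T
      rw [Function.update_self, Function.update_of_ne (by omega)]
    have h2 : S.NB_T (Function.update z (i + 1) w) (i + 1) =
        Real.exp (2 * S.u w) * ‖z (i + 2) - w‖ ^ 2 := by
      unfold Torus.NB_T
      rw [Function.update_self, Function.update_of_ne (by omega)]
    rw [h1, h2] at hw
    simp only [hg]
    unfold Torus.NB_T at hw
    have h3 : i + 1 + 1 = i + 2 := rfl
    rw [h3] at hw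
    linarith
  -- directional derivatives
  have hdir : ∀ ξ : ℂ, Real.exp (2 * S.u (z i)) * (2 * ((z (i + 1) - z i).re * ξ.re +
        (z (i + 1) - z i).im * ξ.im)) +
      (Real.exp (2 * S.u (z (i + 1))) * (2 * fderiv ℝ S.u (z (i + 1)) ξ) *
        ‖z (i + 2) - z (i + 1)‖ ^ 2 + Real.exp (2 * S.u (z (i + 1))) *
        (-2 * ((z (i + 2) - z (i + 1)).re * ξ.re + (z (i + 2) - z (i + 1)).im * ξ.im))) = 0 := by
    intro ξ
    set c : ℝ → ℂ := fun t => z (i + 1) + t * ξ with hc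
    have hcd : ∀ t, HasDerivAt c ξ t := by
      intro t
      have h1 : HasDerivAt (fun t : ℝ => (t : ℂ) * ξ) (1 * ξ) t :=
        (Complex.ofRealCLM.hasDerivAt (x := t)).mul_const ξ
      rw [one_mul] at h1
      exact h1.const_add _
    have hc0 : c 0 = z (i + 1) := by simp [hc]
    have hloc : IsLocalMin (fun t => g (c t)) 0 := by
      have hcc : ContinuousAt c 0 := (hcd 0).continuousAt
      have h2 : Tendsto c (𝓝 0) (𝓝 (z (i + 1))) := by
        have := hcc.tendsto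
        rwa [hc0] at this
      have h3 := h2.eventually hgmin
      filter_upwards [h3] with t ht
      rw [hc0]
      exact ht
    have hd : HasDerivAt (fun t => g (c t)) (Real.exp (2 * S.u (z i)) *
        (2 * ((z (i + 1) - z i).re * ξ.re + (z (i + 1) - z i).im * ξ.im)) +
      (Real.exp (2 * S.u (z (i + 1))) * (2 * fderiv ℝ S.u (z (i + 1)) ξ) *
        ‖z (i + 2) - z (i + 1)‖ ^ 2 + Real.exp (2 * S.u (z (i + 1))) *
        (-2 * ((z (i + 2) - z (i + 1)).re * ξ.re +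
          (z (i + 2) - z (i + 1)).im * ξ.im)))) 0 := by
      have hu : HasDerivAt (fun t => S.u (c t)) (fderiv ℝ S.u (z (i + 1)) ξ) 0 := by
        have h4 : HasFDerivAt S.u (fderiv ℝ S.u (c 0)) (c 0) :=
          (S.smooth.differentiable (by simp) (c 0)).hasFDerivAt
        rw [hc0] at h4
        have h5 := HasFDerivAt.comp_hasDerivAt_of_eq (x := (0 : ℝ)) h4 (hcd 0) hc0.symm
        exact h5
      have he : HasDerivAt (fun t => Real.exp (2 * S.u (c t)))
          (Real.exp (2 * S.u (z (i + 1))) * (2 * fderiv ℝ S.u (z (i + 1)) ξ)) 0 := by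
        have h6 := (hu.const_mul 2).exp
        rw [hc0] at h6
        exact h6
      have hn1 : HasDerivAt (fun t => ‖c t - z i‖ ^ 2)
          (2 * ((z (i + 1) - z i).re * ξ.re + (z (i + 1) - z i).im * ξ.im)) 0 := by
        have h7 := ((hcd 0).sub_const (z i)).norm_sq
        rw [hc0] at h7
        convert h7 using 2
        simp [Complex.inner]
        ring
      have hn2 : HasDerivAt (fun t => ‖z (i + 2) - c t‖ ^ 2)
          (-2 * ((z (i + 2) - z (i + 1)).re * ξ.re + (z (i + 2) - z (i + 1)).im * ξ.im)) 0 := by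
        have h7 := ((hcd 0).const_sub (z (i + 2))).norm_sq
        rw [hc0] at h7
        convert h7 using 1
        simp [Complex.inner]
        ring
      have h8 := (hn1.const_mul (Real.exp (2 * S.u (z i)))).add (he.mul hn2)
      rw [hc0] at h8
      exact h8
    exact hloc.hasDerivAt_eq_zero hd
  have h1 := hdir 1
  have hI := hdir Complex.I
  simp only [Complex.one_re, Complex.one_im, Complex.I_re, Complex.I_im, mul_zero, mul_one,
    add_zero, zero_add] at h1 hI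
  apply Complex.ext
  · simp only [Complex.sub_re, Complex.mul_re, Complex.ofReal_re, Complex.ofReal_im, zero_mul,
      sub_zero, Torus.grad, Complex.add_re, Complex.I_re, Complex.I_im, mul_zero] at h1 ⊢
    linarith
  · simp only [Complex.sub_im, Complex.mul_im, Complex.ofReal_re, Complex.ofReal_im, zero_mul,
      add_zero, Torus.grad, Complex.add_im, Complex.I_re, Complex.I_im, mul_zero, mul_one,
      zero_add] at hI ⊢
    linarith

/-! ### Euler's method -/

theorem NB_euler {E : Type*} [NormedAddCommGroup E] [NormedSpace ℝ E] (F : E → E) (B : Set E)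
    (K M : ℝ) (hK : 0 ≤ K) (hM : 0 ≤ M) (hlip : ∀ x ∈ B, ∀ y ∈ B, ‖F x - F y‖ ≤ K * ‖x - y‖)
    (hbd : ∀ x ∈ B, ‖F x‖ ≤ M) (Y : ℝ → E) (hY : ∀ t ∈ Icc (0 : ℝ) 1, HasDerivAt Y (F (Y t)) t)
    (hYB : ∀ t ∈ Icc (0 : ℝ) 1, Y t ∈ B) (m : ℕ) (hm : 0 < m) (y : ℕ → E) (hy0 : y 0 = Y 0)
    (hyB : ∀ k < m, y k ∈ B)
    (hstep : ∀ k, k + 1 < m → ‖y (k + 1) - y k - (1 / m : ℝ) • F (y k)‖ ≤ K * M / m ^ 2) :
    ∀ k < m, ‖Y (k / m) - y k‖ ≤ 2 * M / m * ((1 + K / m) ^ k - 1) := by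
  have hm0 : (0 : ℝ) < m := by exact_mod_cast hm
  -- the exact solution is Lipschitz
  have hYlip : ∀ s ∈ Icc (0 : ℝ) 1, ∀ t ∈ Icc (0 : ℝ) 1, ‖Y t - Y s‖ ≤ M * ‖t - s‖ := by
    intro s hs t ht
    exact (convex_Icc (0 : ℝ) 1).norm_image_sub_le_of_norm_hasDerivWithin_le
      (fun x hx => (hY x hx).hasDerivWithinAt) (fun x hx => hbd _ (hYB x hx)) hs ht
  have hYstep : ∀ k, k + 1 < m →
      ‖Y ((k + 1 : ℕ) / m) - Y (k / m) - (1 / m : ℝ) • F (Y (k / m))‖ ≤ K * M / m ^ 2 := by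
    intro k hk
    set t₀ : ℝ := (k : ℝ) / m with ht₀
    set t₁ : ℝ := ((k + 1 : ℕ) : ℝ) / m with ht₁
    have h01 : t₁ - t₀ = 1 / m := by
      rw [ht₀, ht₁]
      push_cast
      ring
    have hle : t₀ ≤ t₁ := by
      have : (0 : ℝ) ≤ 1 / m := by positivity
      linarith
    have h0 : 0 ≤ t₀ := by positivity
    have h1 : t₁ ≤ 1 := by
      rw [ht₁, div_le_one hm0]
      exact_mod_cast hk.le
    have hsub : Icc t₀ t₁ ⊆ Icc 0 1 := Icc_subset_Icc h0 h1
    have hmem₀ : t₀ ∈ Icc (0 : ℝ) 1 := hsub ⟨le_rfl, hle⟩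
    have hd : ∀ x ∈ Icc t₀ t₁, HasDerivWithinAt (fun t => Y t - (t - t₀) • F (Y t₀))
        (F (Y x) - F (Y t₀)) (Icc t₀ t₁) x := by
      intro x hx
      have h2 : HasDerivAt (fun t : ℝ => (t - t₀) • F (Y t₀)) ((1 : ℝ) • F (Y t₀)) x :=
        ((hasDerivAt_id x).sub_const t₀).smul_const (F (Y t₀))
      rw [one_smul] at h2
      exact ((hY x (hsub hx)).sub h2).hasDerivWithinAt
    have hb : ∀ x ∈ Icc t₀ t₁, ‖F (Y x) - F (Y t₀)‖ ≤ K * (M * (1 / m)) := by
      intro x hx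
      refine (hlip _ (hYB x (hsub hx)) _ (hYB t₀ hmem₀)).trans ?_
      apply mul_le_mul_of_nonneg_left _ hK
      refine (hYlip t₀ hmem₀ x (hsub hx)).trans ?_
      apply mul_le_mul_of_nonneg_left _ hM
      rw [Real.norm_eq_abs, abs_of_nonneg (by linarith [hx.1]), ← h01]
      linarith [hx.2]
    have h3 := (convex_Icc t₀ t₁).norm_image_sub_le_of_norm_hasDerivWithin_le hd hb
      (left_mem_Icc.2 hle) (right_mem_Icc.2 hle)
    rw [Real.norm_eq_abs, abs_of_nonneg (by linarith), h01] at h3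
    have h4 : Y t₁ - (t₁ - t₀) • F (Y t₀) - (Y t₀ - (t₀ - t₀) • F (Y t₀)) =
        Y t₁ - Y t₀ - (1 / m : ℝ) • F (Y t₀) := by
      rw [sub_self, zero_smul, sub_zero, h01]
      abel
    have h5 : Y t₁ - (1 / (m : ℝ)) • F (Y t₀) - (Y t₀ - (t₀ - t₀) • F (Y t₀)) =
        Y t₁ - Y t₀ - (1 / m : ℝ) • F (Y t₀) := by
      rw [sub_self, zero_smul, sub_zero]
      abel
    rw [h5] at h3
    refine h3.trans (le_of_eq ?_)
    field_simp
  intro k
  induction k with
  | zero =>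
    intro _
    simp [hy0]
  | succ k ih =>
    intro hk
    have hk' : k < m := by omega
    have h1 := ih hk'
    have h2 := hYstep k hk
    have h3 := hstep k hk
    have hmem : (k : ℝ) / m ∈ Icc (0 : ℝ) 1 := by
      refine ⟨by positivity, ?_⟩
      rw [div_le_one hm0]
      exact_mod_cast hk'.le
    have h4 := hlip _ (hYB _ hmem) _ (hyB k hk')
    have h5 : Y ((k + 1 : ℕ) / m) - y (k + 1) =
        (Y ((k + 1 : ℕ) / m) - Y (k / m) - (1 / m : ℝ) • F (Y (k / m))) -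
        (y (k + 1) - y k - (1 / m : ℝ) • F (y k)) + (Y (k / m) - y k) +
        (1 / m : ℝ) • (F (Y (k / m)) - F (y k)) := by
      rw [smul_sub]
      abel
    have h6 : ‖(1 / m : ℝ) • (F (Y (k / m)) - F (y k))‖ ≤ K / m * ‖Y (k / m) - y k‖ := by
      rw [norm_smul, Real.norm_eq_abs, abs_of_nonneg (by positivity)]
      calc 1 / (m : ℝ) * ‖F (Y (k / m)) - F (y k)‖ ≤ 1 / m * (K * ‖Y (k / m) - y k‖) := by gcongr
        _ = K / m * ‖Y (k / m) - y k‖ := by ring
    calc ‖Y ((k + 1 : ℕ) / m) - y (k + 1)‖ ≤ K * M / m ^ 2 + K * M / m ^ 2 + ‖Y (k / m) - y k‖ +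
          K / m * ‖Y (k / m) - y k‖ := by
          rw [h5]
          refine (norm_add_le _ _).trans (add_le_add ?_ h6)
          refine (norm_add_le _ _).trans (add_le_add ?_ le_rfl)
          exact (norm_sub_le _ _).trans (add_le_add h2 h3)
      _ = 2 * K * M / m ^ 2 + (1 + K / m) * ‖Y (k / m) - y k‖ := by ring
      _ ≤ 2 * K * M / m ^ 2 + (1 + K / m) * (2 * M / m * ((1 + K / m) ^ k - 1)) := by gcongr
      _ = 2 * M / m * ((1 + K / m) ^ (k + 1) - 1) := by
          rw [pow_succ (1 + K / (m : ℝ)) k]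
          generalize (1 + K / (m : ℝ)) ^ k = A
          ring

/-- the vector field -/
def Torus.NB_F (S : Torus) (p : ℂ × ℂ) : ℂ × ℂ :=
  (Real.exp (-2 * S.u p.1) • p.2, (‖p.2‖ ^ 2 * Real.exp (-2 * S.u p.1)) • S.grad p.1)

theorem NB_grad_smooth (S : Torus) : ContDiff ℝ 1 S.grad := by
  unfold Torus.grad
  have h1 : ContDiff ℝ 1 (fderiv ℝ S.u) := S.smooth.fderiv_right
    (show ((1 + 1 : ℕ∞) : WithTop ℕ∞) ≤ ((⊤ : ℕ∞) : WithTop ℕ∞) from WithTop.coe_le_coe.2 le_top)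
  have h2 : ∀ ξ : ℂ, ContDiff ℝ 1 (fun z => ((fderiv ℝ S.u z ξ : ℝ) : ℂ)) := fun ξ =>
    Complex.ofRealCLM.contDiff.comp (h1.clm_apply contDiff_const)
  exact (h2 1).add ((h2 Complex.I).mul contDiff_const)

theorem NB_F_smooth (S : Torus) : ContDiff ℝ 1 S.NB_F := by
  unfold Torus.NB_F
  have h0 : ContDiff ℝ 1 S.u := S.smooth.of_le (by simp)
  have h1 : ContDiff ℝ 1 (fun p : ℂ × ℂ => Real.exp (-2 * S.u p.1)) :=
    (contDiff_const.mul (h0.comp contDiff_fst)).exp
  have h2 : ContDiff ℝ 1 (fun p : ℂ × ℂ => ‖p.2‖ ^ 2) := (contDiff_snd).norm_sq ℝ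
  exact (h1.smul contDiff_snd).prodMk ((h2.mul h1).smul ((NB_grad_smooth S).comp contDiff_fst))

/-- the exact solution -/
def Flow.NB_Y (Φ : Flow S) (v : ℂ × ℝ) (s : ℝ) (t : ℝ) : ℂ × ℂ :=
  ((Φ.φ (s * t) v).1, (s * Real.exp (2 * S.u (Φ.φ (s * t) v).1)) •
    deriv (fun r => (Φ.φ r v).1) (s * t))

theorem NB_Y_deriv (Φ : Flow S) (v : ℂ × ℝ) (s t : ℝ) :
    HasDerivAt (Φ.NB_Y v s) (S.NB_F (Φ.NB_Y v s t)) t := by
  set γ : ℝ → ℂ := fun r => (Φ.φ r v).1 with hγ
  have hg := Φ.geod v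
  have hd1 : ∀ r, HasDerivAt γ (deriv γ r) r := fun r =>
    (hg.smooth.differentiable (by simp) r).hasDerivAt
  have hd2 : ∀ r, HasDerivAt (deriv γ) (deriv (deriv γ) r) r := by
    intro r
    have h1 : ContDiff ℝ 1 (deriv γ) := (contDiff_infty_iff_deriv.1 hg.smooth).2.of_le (by simp)
    exact (h1.differentiable (by simp) r).hasDerivAt
  have hlin : HasDerivAt (fun t : ℝ => s * t) s t := by
    have := (hasDerivAt_id t).const_mul s
    rwa [mul_one] at this
  have e1 : HasDerivAt (fun t => γ (s * t)) (s • deriv γ (s * t)) t :=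
    (hd1 (s * t)).scomp t hlin
  have e2 : HasDerivAt (fun t => deriv γ (s * t)) (s • deriv (deriv γ) (s * t)) t :=
    (hd2 (s * t)).scomp t hlin
  have e3 : HasDerivAt (fun t => S.u (γ (s * t)))
      (fderiv ℝ S.u (γ (s * t)) (s • deriv γ (s * t))) t := by
    have h4 : HasFDerivAt S.u (fderiv ℝ S.u (γ (s * t))) (γ (s * t)) :=
      (S.smooth.differentiable (by simp) _).hasFDerivAt
    exact h4.comp_hasDerivAt t e1
  have e4 : HasDerivAt (fun t => s * Real.exp (2 * S.u (γ (s * t))))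
      (s * (Real.exp (2 * S.u (γ (s * t))) *
        (2 * fderiv ℝ S.u (γ (s * t)) (s • deriv γ (s * t))))) t :=
    ((e3.const_mul 2).exp).const_mul s
  have e5 := e1.prodMk (e4.smul e2)
  have hY : Φ.NB_Y v s = fun t => (γ (s * t), (s * Real.exp (2 * S.u (γ (s * t)))) •
      deriv γ (s * t)) := rfl
  rw [hY]
  refine e5.congr_deriv ?_
  unfold Torus.NB_F
  simp only
  have hexp : Real.exp (-2 * S.u (γ (s * t))) * Real.exp (2 * S.u (γ (s * t))) = 1 := by
    rw [← Real.exp_add]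
    simp
  ext1
  · simp only
    rw [smul_smul]
    congr 1
    calc s = s * (Real.exp (-2 * S.u (γ (s * t))) * Real.exp (2 * S.u (γ (s * t)))) := by
          rw [hexp, mul_one]
      _ = _ := by ring
  · simp only
    have hgeq := hg.eq (s * t)
    have hgeq' : deriv (deriv γ) (s * t) =
        -2 * (fderiv ℝ S.u (γ (s * t)) (deriv γ (s * t)) : ℂ) * deriv γ (s * t) +
          (‖deriv γ (s * t)‖ ^ 2 : ℝ) * S.grad (γ (s * t)) := hgeq
    rw [hgeq', map_smul, smul_eq_mul, norm_smul, Real.norm_eq_abs, mul_pow, sq_abs]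
    set E := Real.exp (2 * S.u (γ (s * t))) with hE
    set E' := Real.exp (-2 * S.u (γ (s * t))) with hE'
    set d := deriv γ (s * t) with hdd
    have h7 : (s * E) ^ 2 * ‖d‖ ^ 2 * E' = s ^ 2 * E * ‖d‖ ^ 2 := by
      calc (s * E) ^ 2 * ‖d‖ ^ 2 * E' = s ^ 2 * E * ‖d‖ ^ 2 * (E' * E) := by ring
        _ = s ^ 2 * E * ‖d‖ ^ 2 := by rw [hexp, mul_one]
    rw [h7]
    simp only [Complex.real_smul]
    push_cast
    ring

theorem NB_speed (Φ : Flow S) (U : ℝ) (hU : ∀ z, |S.u z| ≤ U) (v : ℂ × ℝ) (t : ℝ) :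
    ‖deriv (fun r => (Φ.φ r v).1) t‖ ≤ Real.exp U := by
  have h := (Φ.geod v).unit t
  have h1 : 0 < Real.exp (S.u (Φ.φ t v).1) := Real.exp_pos _
  have h2 : ‖deriv (fun r => (Φ.φ r v).1) t‖ = Real.exp (-S.u (Φ.φ t v).1) := by
    rw [Real.exp_neg]
    apply eq_inv_of_mul_eq_one_left
    rw [mul_comm]
    exact h
  rw [h2]
  apply Real.exp_le_exp.2
  have := (abs_le.1 (hU (Φ.φ t v).1)).1
  linarith

theorem NB_Y_bound (Φ : Flow S) (U : ℝ) (hU : ∀ z, |S.u z| ≤ U) (θ s : ℝ) (hs : 0 ≤ s) (t : ℝ)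
    (ht : t ∈ Icc (0 : ℝ) 1) : ‖Φ.NB_Y (0, θ) s t‖ ≤ s * Real.exp (3 * U) := by
  have hU0 : 0 ≤ U := (abs_nonneg _).trans (hU 0)
  rw [Prod.norm_def, max_le_iff]
  constructor
  · simp only [Flow.NB_Y]
    have h1 : ∀ x ∈ (univ : Set ℝ), HasDerivWithinAt (fun r => (Φ.φ r (0, θ)).1)
        (deriv (fun r => (Φ.φ r (0, θ)).1) x) univ x := fun x _ =>
      (((Φ.geod (0, θ)).smooth.differentiable (by simp) x).hasDerivAt).hasDerivWithinAt
    have h2 := convex_univ.norm_image_sub_le_of_norm_hasDerivWithin_le h1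
      (fun x _ => NB_speed Φ U hU (0, θ) x) (mem_univ (0 : ℝ)) (mem_univ (s * t))
    simp only [Φ.zero, sub_zero] at h2
    rw [Real.norm_eq_abs, abs_of_nonneg (mul_nonneg hs ht.1)] at h2
    refine h2.trans ?_
    have h3 : Real.exp U ≤ Real.exp (3 * U) := Real.exp_le_exp.2 (by linarith)
    have h4 : s * t ≤ s := by nlinarith [ht.2]
    calc Real.exp U * (s * t) ≤ Real.exp (3 * U) * s := by
          apply mul_le_mul h3 h4 (mul_nonneg hs ht.1) (Real.exp_pos _).le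
      _ = s * Real.exp (3 * U) := mul_comm _ _
  · simp only [Flow.NB_Y]
    rw [norm_smul, Real.norm_eq_abs, abs_of_nonneg (by positivity)]
    have h5 : Real.exp (2 * S.u (Φ.φ (s * t) (0, θ)).1) ≤ Real.exp (2 * U) := by
      apply Real.exp_le_exp.2
      have := (abs_le.1 (hU (Φ.φ (s * t) (0, θ)).1)).2
      linarith
    calc s * Real.exp (2 * S.u (Φ.φ (s * t) (0, θ)).1) *
          ‖deriv (fun r => (Φ.φ r (0, θ)).1) (s * t)‖ ≤ s * Real.exp (2 * U) * Real.exp U := by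
          gcongr
          exact NB_speed Φ U hU (0, θ) _
      _ = s * Real.exp (3 * U) := by
          rw [mul_assoc, ← Real.exp_add]
          congr 2
          ring

theorem NB_Y_zero (Φ : Flow S) (q : ℂ) :
    Φ.NB_Y (0, q.arg) (‖q‖ * Real.exp (-S.u 0)) 0 = (0, q) := by
  unfold Flow.NB_Y
  rw [mul_zero, Φ.zero]
  ext1
  · rfl
  · simp only
    have h1 := (Φ.vel (0, q.arg) 0).deriv
    rw [h1, Φ.zero]
    simp only
    have h2 : (‖q‖ * Real.exp (-S.u 0) * Real.exp (2 * S.u 0) : ℝ) = ‖q‖ * Real.exp (S.u 0) := by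
      rw [mul_assoc, ← Real.exp_add]
      congr 2
      ring
    rw [h2, Complex.real_smul]
    push_cast
    have h3 : (Complex.exp (S.u 0)) * Complex.exp (-(S.u 0 : ℂ)) = 1 := by
      rw [← Complex.exp_add]
      simp
    calc (‖q‖ : ℂ) * Complex.exp (S.u 0) * (Complex.exp (-(S.u 0 : ℂ)) *
          Complex.exp (q.arg * Complex.I))
        = (‖q‖ : ℂ) * Complex.exp (q.arg * Complex.I) *
          (Complex.exp (S.u 0) * Complex.exp (-(S.u 0 : ℂ))) := by ring
      _ = q := by rw [h3, mul_one, Complex.norm_mul_exp_arg_mul_I]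

/-! ### the bounds for the discrete minimiser -/

theorem NB_disc (S : Torus) (U : ℝ) (hU : ∀ z, |S.u z| ≤ U) (L : ℂ) : ∃ R : ℝ, 0 ≤ R ∧
    ∀ m : ℕ, 0 < m → ∃ y : ℕ → ℂ × ℂ, (y 0).1 = 0 ∧ (∀ k < m, ‖y k‖ ≤ R) ∧
      (∀ k, k + 1 < m → y (k + 1) = y k +
        (1 / m : ℝ) • ((S.NB_F (y k)).1, (S.NB_F (y (k + 1))).2)) ∧
      L = (y (m - 1)).1 + (1 / m : ℝ) • (S.NB_F (y (m - 1))).1 := by
  have hU0 : 0 ≤ U := (abs_nonneg _).trans (hU 0)
  set R₁ : ℝ := Real.exp (2 * U) * ‖L‖ with hR₁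
  set C₀ : ℝ := Real.exp (4 * U) * ‖L‖ ^ 2 with hC₀
  obtain ⟨G, hG⟩ := (isCompact_closedBall (0 : ℂ) R₁).exists_bound_of_continuousOn
    (NB_grad_smooth S).continuous.continuousOn
  have hR₁0 : 0 ≤ R₁ := by positivity
  have hG0 : 0 ≤ G := (norm_nonneg _).trans (hG 0 (by simpa using hR₁0))
  refine ⟨R₁ + (Real.exp (2 * U) * R₁ + Real.exp (2 * U) * G * C₀), by positivity,
    fun m hm => ?_⟩
  have hm0 : (0 : ℝ) < m := by exact_mod_cast hm
  obtain ⟨z, hz0, hzm, hzn, hzs, hzmin⟩ := NB_min S U hU m hm L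
  set q : ℕ → ℂ := fun k => ((m : ℝ) * Real.exp (2 * S.u (z k))) • (z (k + 1) - z k) with hq
  have hexp : ∀ w, Real.exp (-2 * S.u w) * Real.exp (2 * S.u w) = 1 := by
    intro w
    rw [← Real.exp_add]
    simp
  have hexpU : ∀ w, Real.exp (2 * S.u w) ≤ Real.exp (2 * U) := by
    intro w
    apply Real.exp_le_exp.2
    have := (abs_le.1 (hU w)).2
    linarith
  have hF1 : ∀ k, (1 / m : ℝ) • (S.NB_F (z k, q k)).1 = z (k + 1) - z k := by
    intro k
    simp only [Torus.NB_F, hq]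
    rw [smul_smul, smul_smul]
    have : 1 / (m : ℝ) * Real.exp (-2 * S.u (z k)) * (m * Real.exp (2 * S.u (z k))) = 1 := by
      calc 1 / (m : ℝ) * Real.exp (-2 * S.u (z k)) * (m * Real.exp (2 * S.u (z k)))
          = (1 / m * m) * (Real.exp (-2 * S.u (z k)) * Real.exp (2 * S.u (z k))) := by ring
        _ = 1 := by rw [hexp, mul_one]; field_simp
    rw [this, one_smul]
  have hF2 : ∀ k, (1 / m : ℝ) • (S.NB_F (z k, q k)).2 =
      ((m : ℝ) * (Real.exp (2 * S.u (z k)) * ‖z (k + 1) - z k‖ ^ 2)) • S.grad (z k) := by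
    intro k
    simp only [Torus.NB_F, hq]
    rw [smul_smul, norm_smul, Real.norm_eq_abs, mul_pow, sq_abs]
    congr 1
    calc 1 / (m : ℝ) * ((m * Real.exp (2 * S.u (z k))) ^ 2 * ‖z (k + 1) - z k‖ ^ 2 *
          Real.exp (-2 * S.u (z k)))
        = (1 / m * m) * (m * (Real.exp (2 * S.u (z k)) * ‖z (k + 1) - z k‖ ^ 2)) *
          (Real.exp (-2 * S.u (z k)) * Real.exp (2 * S.u (z k))) := by ring
      _ = m * (Real.exp (2 * S.u (z k)) * ‖z (k + 1) - z k‖ ^ 2) := by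
          rw [hexp, mul_one]; field_simp
  have hEL : ∀ k, k + 1 < m → q (k + 1) - q k =
      ((m : ℝ) * (Real.exp (2 * S.u (z (k + 1))) * ‖z (k + 2) - z (k + 1)‖ ^ 2)) •
        S.grad (z (k + 1)) := by
    intro k hk
    have h1 := NB_EL S m z k hk (hzmin (k + 1) (by omega) hk)
    simp only [hq]
    have h2 : k + 1 + 1 = k + 2 := rfl
    rw [h2, Complex.real_smul, Complex.real_smul, Complex.real_smul]
    have h3 := congrArg (fun w => (m : ℂ) * w) h1
    push_cast at h3 ⊢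
    linear_combination h3
  -- bounds
  set b : ℕ → ℝ := fun i => (m : ℝ) * (Real.exp (2 * U) * G) * ‖z (i + 1) - z i‖ ^ 2 with hb
  have hb0 : ∀ i, 0 ≤ b i := fun i => by positivity
  have hbsum : ∑ i ∈ Finset.range m, b i ≤ Real.exp (2 * U) * G * C₀ := by
    simp only [hb]
    rw [← Finset.mul_sum]
    calc (m : ℝ) * (Real.exp (2 * U) * G) * ∑ i ∈ Finset.range m, ‖z (i + 1) - z i‖ ^ 2
        ≤ (m : ℝ) * (Real.exp (2 * U) * G) * (C₀ / m) := by gcongr
      _ = Real.exp (2 * U) * G * C₀ := by field_simp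
  have hdq : ∀ i, i + 1 < m → dist (q i) (q (i + 1)) ≤ b (i + 1) := by
    intro i hi
    rw [dist_comm, dist_eq_norm, hEL i hi, norm_smul, Real.norm_eq_abs,
      abs_of_nonneg (by positivity)]
    have h1 : ‖S.grad (z (i + 1))‖ ≤ G := hG _ (by
      rw [Metric.mem_closedBall, dist_zero_right]
      exact hzn _ hi.le)
    have h2 : i + 1 + 1 = i + 2 := rfl
    simp only [hb]
    rw [h2]
    calc (m : ℝ) * (Real.exp (2 * S.u (z (i + 1))) * ‖z (i + 2) - z (i + 1)‖ ^ 2) *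
          ‖S.grad (z (i + 1))‖
        ≤ (m : ℝ) * (Real.exp (2 * U) * ‖z (i + 2) - z (i + 1)‖ ^ 2) * G := by
          gcongr
          exact (le_abs_self _).trans (hU _)
      _ = (m : ℝ) * (Real.exp (2 * U) * G) * ‖z (i + 2) - z (i + 1)‖ ^ 2 := by ring
  have hdist : ∀ j k, j ≤ k → k < m → dist (q j) (q k) ≤ Real.exp (2 * U) * G * C₀ := by
    intro j k hjk hk
    calc dist (q j) (q k) ≤ ∑ i ∈ Finset.Ico j k, dist (q i) (q (i + 1)) :=
          dist_le_Ico_sum_dist q hjk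
      _ ≤ ∑ i ∈ Finset.Ico j k, b (i + 1) := by
          apply Finset.sum_le_sum
          intro i hi
          rw [Finset.mem_Ico] at hi
          exact hdq i (by omega)
      _ = ∑ i ∈ Finset.Ico (j + 1) (k + 1), b i := Finset.sum_Ico_add' b j k 1
      _ ≤ ∑ i ∈ Finset.range m, b i := by
          apply Finset.sum_le_sum_of_subset_of_nonneg
          · intro i hi
            rw [Finset.mem_Ico] at hi
            rw [Finset.mem_range]
            omega
          · intro i _ _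
            exact hb0 i
      _ ≤ _ := hbsum
  obtain ⟨k₀, hk₀, hk₀'⟩ : ∃ i ∈ Finset.range m, ‖z (i + 1) - z i‖ ^ 2 ≤ C₀ / m ^ 2 := by
    apply Finset.exists_le_of_sum_le ⟨0, Finset.mem_range.2 hm⟩
    rw [Finset.sum_const, Finset.card_range, nsmul_eq_mul]
    refine hzs.trans (le_of_eq ?_)
    rw [← hC₀]
    field_simp
  rw [Finset.mem_range] at hk₀
  have hqk₀ : ‖q k₀‖ ≤ Real.exp (2 * U) * R₁ := by
    have h1 : ‖z (k₀ + 1) - z k₀‖ ≤ R₁ / m := by
      apply (pow_le_pow_iff_left₀ (norm_nonneg _) (by positivity) two_ne_zero).1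
      refine hk₀'.trans (le_of_eq ?_)
      rw [hC₀, hR₁, div_pow, mul_pow, ← Real.exp_nat_mul]
      congr 3
      push_cast
      ring
    simp only [hq]
    rw [norm_smul, Real.norm_eq_abs, abs_of_nonneg (by positivity)]
    calc (m : ℝ) * Real.exp (2 * S.u (z k₀)) * ‖z (k₀ + 1) - z k₀‖
        ≤ (m : ℝ) * Real.exp (2 * U) * (R₁ / m) := by
          gcongr
          exact (le_abs_self _).trans (hU _)
      _ = Real.exp (2 * U) * R₁ := by field_simp
  have hqb : ∀ k < m, ‖q k‖ ≤ Real.exp (2 * U) * R₁ + Real.exp (2 * U) * G * C₀ := by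
    intro k hk
    have h1 : dist (q k) (q k₀) ≤ Real.exp (2 * U) * G * C₀ := by
      rcases le_total k k₀ with h | h
      · exact hdist k k₀ h hk₀
      · rw [dist_comm]
        exact hdist k₀ k h hk
    have h2 : ‖q k‖ ≤ ‖q k₀‖ + dist (q k) (q k₀) := by
      rw [dist_eq_norm]
      have : q k = q k₀ + (q k - q k₀) := by ring
      calc ‖q k‖ = ‖q k₀ + (q k - q k₀)‖ := by rw [← this]
        _ ≤ _ := norm_add_le _ _
    linarith
  refine ⟨fun k => (z k, q k), hz0, ?_, ?_, ?_⟩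
  · intro k hk
    rw [Prod.norm_def, max_le_iff]
    have h1 := hzn k hk.le
    have h2 := hqb k hk
    have h3 : 0 ≤ Real.exp (2 * U) * R₁ + Real.exp (2 * U) * G * C₀ := by positivity
    constructor
    · simp only
      linarith
    · simp only
      linarith
  · intro k hk
    have h1 := hF1 k
    have h2 := hF2 (k + 1)
    have h3 := hEL k hk
    have h4 : k + 1 + 1 = k + 2 := rfl
    rw [h4, ← h3] at h2
    ext1
    · simp only [Prod.fst_add, Prod.smul_fst]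
      rw [h1]
      ring
    · simp only [Prod.snd_add, Prod.smul_snd]
      rw [h2]
      ring
  · have h1 := hF1 (m - 1)
    simp only
    rw [h1, Nat.sub_add_cancel hm, hzm]
    ring

theorem NB_approx (Φ : Flow S) (L : ℂ) : ∃ S₀ : ℝ, 0 ≤ S₀ ∧ ∀ ε > (0 : ℝ),
    ∃ s ∈ Icc 0 S₀, ∃ θ ∈ Icc (-Real.pi) Real.pi, dist L (Φ.φ s (0, θ)).1 < ε := by
  obtain ⟨U, hU0, hU⟩ := NB_u_bdd S
  obtain ⟨R, hR0, hR⟩ := NB_disc S U hU L
  refine ⟨R * Real.exp U, by positivity, fun ε hε => ?_⟩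
  set R' : ℝ := R + R * Real.exp U * Real.exp (3 * U) with hR'
  set B : Set (ℂ × ℂ) := Metric.closedBall 0 R' with hB
  obtain ⟨K, hK⟩ := (NB_F_smooth S).contDiffOn.exists_lipschitzOnWith (s := B) one_ne_zero
    (convex_closedBall 0 R') (isCompact_closedBall _ _)
  obtain ⟨M, hM⟩ := (isCompact_closedBall (0 : ℂ × ℂ) R').exists_bound_of_continuousOn
    (NB_F_smooth S).continuous.continuousOn
  have hR'0 : 0 ≤ R' := by positivity
  have hM0 : 0 ≤ M := (norm_nonneg _).trans (hM 0 (by simpa using hR'0))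
  -- choice of m
  set c : ℝ := 2 * M + 2 * M * Real.exp K with hc
  have hc0 : 0 ≤ c := by positivity
  obtain ⟨m, hm⟩ := exists_nat_gt (max 1 (c / ε))
  have hm1 : (1 : ℝ) < m := (le_max_left _ _).trans_lt hm
  have hm2 : c / ε < m := (le_max_right _ _).trans_lt hm
  have hm0 : (0 : ℝ) < m := by linarith
  have hmpos : 0 < m := by exact_mod_cast hm0
  obtain ⟨y, hy0, hyR, hystep, hyL⟩ := hR m hmpos
  set q₀ : ℂ := (y 0).2 with hq₀
  set s : ℝ := ‖q₀‖ * Real.exp (-S.u 0) with hs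
  have hs0 : 0 ≤ s := by positivity
  have hq₀R : ‖q₀‖ ≤ R := (norm_snd_le (y 0)).trans (hyR 0 hmpos)
  have hsS : s ≤ R * Real.exp U := by
    rw [hs]
    have h1 : Real.exp (-S.u 0) ≤ Real.exp U := by
      apply Real.exp_le_exp.2
      have := (abs_le.1 (hU 0)).1
      linarith
    gcongr
  refine ⟨s, ⟨hs0, hsS⟩, q₀.arg, ⟨(Complex.neg_pi_lt_arg _).le, Complex.arg_le_pi _⟩, ?_⟩
  have hY0 : Φ.NB_Y (0, q₀.arg) s 0 = y 0 := by
    rw [hs, NB_Y_zero]
    ext1
    · exact hy0.symm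
    · rfl
  have hYB : ∀ t ∈ Icc (0 : ℝ) 1, Φ.NB_Y (0, q₀.arg) s t ∈ B := by
    intro t ht
    rw [hB, Metric.mem_closedBall, dist_zero_right]
    refine (NB_Y_bound Φ U hU q₀.arg s hs0 t ht).trans ?_
    have h2 : s * Real.exp (3 * U) ≤ R * Real.exp U * Real.exp (3 * U) := by gcongr
    linarith
  have hyB : ∀ k < m, y k ∈ B := by
    intro k hk
    rw [hB, Metric.mem_closedBall, dist_zero_right]
    have h3 : 0 ≤ R * Real.exp U * Real.exp (3 * U) := by positivity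
    linarith [hyR k hk]
  have hlip : ∀ x ∈ B, ∀ y ∈ B, ‖S.NB_F x - S.NB_F y‖ ≤ K * ‖x - y‖ := by
    intro x hx y hy
    exact hK.norm_sub_le hx hy
  have hst : ∀ k, k + 1 < m →
      ‖y (k + 1) - y k - (1 / m : ℝ) • S.NB_F (y k)‖ ≤ K * M / m ^ 2 := by
    intro k hk
    have h4 : ‖y (k + 1) - y k‖ ≤ M / m := by
      rw [hystep k hk, add_sub_cancel_left, norm_smul, Real.norm_eq_abs,
        abs_of_nonneg (by positivity), Prod.norm_def]
      have h5 : max ‖(S.NB_F (y k)).1‖ ‖(S.NB_F (y (k + 1))).2‖ ≤ M := by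
        apply max_le
        · exact (norm_fst_le _).trans (hM _ (hyB k (by omega)))
        · exact (norm_snd_le _).trans (hM _ (hyB (k + 1) hk))
      calc 1 / (m : ℝ) * max ‖(S.NB_F (y k)).1‖ ‖(S.NB_F (y (k + 1))).2‖ ≤ 1 / m * M := by gcongr
        _ = M / m := by ring
    have h6 : y (k + 1) - y k - (1 / m : ℝ) • S.NB_F (y k) =
        (1 / m : ℝ) • ((0 : ℂ), (S.NB_F (y (k + 1)) - S.NB_F (y k)).2) := by
      nth_rewrite 1 [hystep k hk]
      ext1
      · simp only [Prod.fst_sub, Prod.fst_add, Prod.smul_fst]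
        simp
      · simp only [Prod.snd_sub, Prod.snd_add, Prod.smul_snd]
        rw [smul_sub]
        ring
    rw [h6, norm_smul, Real.norm_eq_abs, abs_of_nonneg (by positivity), Prod.norm_def]
    simp only [norm_zero]
    rw [max_eq_right (norm_nonneg _)]
    calc 1 / (m : ℝ) * ‖(S.NB_F (y (k + 1)) - S.NB_F (y k)).2‖
        ≤ 1 / m * (K * (M / m)) := by
          gcongr
          refine (norm_snd_le _).trans ((hlip _ (hyB _ hk) _ (hyB k (by omega))).trans ?_)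
          gcongr
      _ = K * M / m ^ 2 := by ring
  have heul := NB_euler S.NB_F B K M K.2 hM0 hlip (fun x hx => hM x hx)
    (Φ.NB_Y (0, q₀.arg) s) (fun t _ => NB_Y_deriv Φ (0, q₀.arg) s t) hYB m hmpos y hY0.symm hyB
    hst (m - 1) (by omega)
  have hpow : (1 + (K : ℝ) / m) ^ (m - 1) ≤ Real.exp K := by
    have h7 : 1 + (K : ℝ) / m ≤ Real.exp (K / m) := by
      have := Real.add_one_le_exp ((K : ℝ) / m)
      linarith
    have hK0 : (0 : ℝ) ≤ K := K.2
    calc (1 + (K : ℝ) / m) ^ (m - 1) ≤ Real.exp (K / m) ^ (m - 1) := by gcongr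
      _ ≤ Real.exp (K / m) ^ m := by
          apply pow_le_pow_right₀ _ (by omega)
          apply Real.one_le_exp
          positivity
      _ = Real.exp K := by
          rw [← Real.exp_nat_mul]
          congr 1
          field_simp
  have h8 : ‖Φ.NB_Y (0, q₀.arg) s ((m - 1 : ℕ) / m) - y (m - 1)‖ ≤
      2 * M / m * Real.exp K := by
    refine heul.trans ?_
    have : 0 ≤ 2 * M / (m : ℝ) := by positivity
    nlinarith [this, hpow]
  have hmem : (((m - 1 : ℕ) : ℝ) / m) ∈ Icc (0 : ℝ) 1 := by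
    refine ⟨by positivity, ?_⟩
    rw [div_le_one hm0]
    exact_mod_cast Nat.sub_le m 1
  have h9 : ‖Φ.NB_Y (0, q₀.arg) s 1 - Φ.NB_Y (0, q₀.arg) s ((m - 1 : ℕ) / m)‖ ≤ M / m := by
    have h10 := (convex_Icc (0 : ℝ) 1).norm_image_sub_le_of_norm_hasDerivWithin_le
      (fun x _ => (NB_Y_deriv Φ (0, q₀.arg) s x).hasDerivWithinAt)
      (fun x hx => hM _ (hYB x hx)) hmem (right_mem_Icc.2 zero_le_one)
    refine h10.trans (le_of_eq ?_)
    have h11 : (1 : ℝ) - ((m - 1 : ℕ) : ℝ) / m = 1 / m := by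
      rw [Nat.cast_sub (by omega)]
      push_cast
      field_simp
      ring
    rw [h11, Real.norm_eq_abs, abs_of_nonneg (by positivity)]
    ring
  have h12 : ‖(1 / m : ℝ) • (S.NB_F (y (m - 1))).1‖ ≤ M / m := by
    rw [norm_smul, Real.norm_eq_abs, abs_of_nonneg (by positivity)]
    calc 1 / (m : ℝ) * ‖(S.NB_F (y (m - 1))).1‖ ≤ 1 / m * M := by
          gcongr
          exact (norm_fst_le _).trans (hM _ (hyB (m - 1) (by omega)))
      _ = M / m := by ring
  have h13 : (Φ.φ s (0, q₀.arg)).1 = (Φ.NB_Y (0, q₀.arg) s 1).1 := by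
    simp [Flow.NB_Y]
  rw [dist_comm, dist_eq_norm, h13]
  have h14 : (Φ.NB_Y (0, q₀.arg) s 1).1 - L =
      (Φ.NB_Y (0, q₀.arg) s 1 - Φ.NB_Y (0, q₀.arg) s ((m - 1 : ℕ) / m)).1 +
      (Φ.NB_Y (0, q₀.arg) s ((m - 1 : ℕ) / m) - y (m - 1)).1 -
      (1 / m : ℝ) • (S.NB_F (y (m - 1))).1 := by
    nth_rewrite 1 [hyL]
    simp only [Prod.fst_sub]
    ring
  calc ‖(Φ.NB_Y (0, q₀.arg) s 1).1 - L‖ ≤ M / m + 2 * M / m * Real.exp K + M / m := by
        rw [h14]
        refine (norm_sub_le _ _).trans (add_le_add ?_ h12)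
        exact (norm_add_le _ _).trans (add_le_add ((norm_fst_le _).trans h9)
          ((norm_fst_le _).trans h8))
    _ = c / m := by rw [hc]; ring
    _ < ε := by
        rw [div_lt_iff₀ hm0]
        rwa [div_lt_iff₀ hε, mul_comm] at hm2

theorem exists_geod (Φ : Flow S) (L : ℂ) : ∃ (v : ℂ × ℝ) (t : ℝ), v.1 = 0 ∧ (Φ.φ t v).1 = L := by
  obtain ⟨S₀, hS₀, h⟩ := NB_approx Φ L
  set f : ℝ × ℝ → ℂ := fun p => (Φ.φ p.1 (0, p.2)).1 with hf
  have hfc : Continuous f := by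
    have h1 : Continuous (fun p : ℝ × ℝ => ((p.1, ((0 : ℂ), p.2)) : ℝ × (ℂ × ℝ))) := by fun_prop
    exact (Φ.cont.comp h1).fst
  have hK : IsCompact (f '' (Icc 0 S₀ ×ˢ Icc (-Real.pi) Real.pi)) :=
    (isCompact_Icc.prod isCompact_Icc).image hfc
  have hL : L ∈ closure (f '' (Icc 0 S₀ ×ˢ Icc (-Real.pi) Real.pi)) := by
    rw [Metric.mem_closure_iff]
    intro ε hε
    obtain ⟨s, hs, θ, hθ, hd⟩ := h ε hε
    exact ⟨_, ⟨(s, θ), ⟨hs, hθ⟩, rfl⟩, hd⟩
  rw [hK.isClosed.closure_eq] at hL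
  obtain ⟨⟨s, θ⟩, _, hp⟩ := hL
  exact ⟨(0, θ), s, rfl, hp⟩

theorem Tb_null (h : S.Ergodic) (Φ : Flow S) : volume S.Tb = 0 := by
  by_contra hne
  set A : ℕ → Set (ℂ × ℝ) := fun n => {v | ∀ s t, ‖Φ.D s v - Φ.D t v‖ ≤ n} with hA
  have hAc : ∀ n, IsClosed (A n) := by
    intro n
    have h1 : A n = ⋂ (s : ℝ) (t : ℝ), {v | ‖Φ.D s v - Φ.D t v‖ ≤ n} := by
      ext v
      simp [hA]
    rw [h1]
    exact isClosed_iInter fun s => isClosed_iInter fun t =>
      isClosed_le ((Φ.D_cont_v s).sub (Φ.D_cont_v t)).norm continuous_const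
  have hsub : S.Tb ⊆ ⋃ n, A n := by
    intro v hv
    obtain ⟨C, hC⟩ := (Tb_iff Φ v).1 hv
    obtain ⟨n, hn⟩ := exists_nat_ge (2 * C)
    refine mem_iUnion.2 ⟨n, fun s t => ?_⟩
    calc ‖Φ.D s v - Φ.D t v‖ ≤ ‖Φ.D s v‖ + ‖Φ.D t v‖ := norm_sub_le _ _
      _ ≤ C + C := add_le_add (hC s) (hC t)
      _ ≤ n := by linarith
  have hex : ∃ n, volume (A n) ≠ 0 := by
    by_contra hcon
    push Not at hcon
    exact hne (measure_mono_null hsub (measure_iUnion_null hcon))
  obtain ⟨n, hn⟩ := hex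
  have hi : S.Inv (fun v => v ∈ A n) := by
    have h1 : ∀ s t, S.Inv (fun v => ‖Φ.D s v - Φ.D t v‖ ≤ n) := fun s t =>
      ((Φ.D_inv s).prod (Φ.D_inv t)).comp (fun p : ℂ × ℂ => ‖p.1 - p.2‖ ≤ n)
    exact Torus.Inv.all fun s => Torus.Inv.all fun t => h1 s t
  have hf : ∀ t v, Φ.φ t v ∈ A n ↔ v ∈ A n := by
    have h1 : ∀ t v, v ∈ A n → Φ.φ t v ∈ A n := by
      intro r v hv s t
      have h2 := Φ.D_add s r v
      have h3 := Φ.D_add t r v
      have h4 : Φ.D s (Φ.φ r v) - Φ.D t (Φ.φ r v) = Φ.D (s + r) v - Φ.D (t + r) v := by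
        rw [h2, h3]
        ring
      rw [h4]
      exact hv _ _
    intro t v
    refine ⟨fun hv => ?_, h1 t v⟩
    have h2 := h1 (-t) _ hv
    rwa [← Φ.add, neg_add_cancel, Φ.zero] at h2
  have h0 := (erg_flow h Φ (A n) (hAc n).measurableSet hi hf).resolve_left hn
  have huniv : (A n)ᶜ = ∅ := (hAc n).isOpen_compl.eq_empty_of_measure_zero h0
  obtain ⟨v, t, hv, ht⟩ := exists_geod Φ ((n : ℂ) + 1)
  have hvA : v ∈ A n := by
    by_contra hcon
    have : v ∈ (A n)ᶜ := hcon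
    rw [huniv] at this
    exact this
  have h1 := hvA t 0
  rw [Φ.D_zero, sub_zero, Flow.D, ht, hv, sub_zero] at h1
  have h2 : ‖(n : ℂ) + 1‖ = n + 1 := by
    have : (n : ℂ) + 1 = ((n + 1 : ℕ) : ℂ) := by push_cast; ring
    rw [this, Complex.norm_natCast]
    push_cast
    ring
  rw [h2] at h1
  linarith

end

end Pool.Agent.ET
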